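import Pool.Agent.W425.GN.Defs

set_option autoImplicit false

/-! Project GN, part B1: the Weyl algebra and the symbols. -/

namespace Pool.Agent.W924.GN

open MvPolynomial Pool.Agent.H628R4.TP Pool.Agent.W425.GN

variable {n : ℕ}

theorem act_add (P Q : MvPolynomial (Sy n) ℂ) (s : ℕ) (φ : MvPolynomial (Fin n) ℂ) :
    act (P + Q) s φ = act P s φ + act Q s φ := by
  unfold act
  exact map_add _ _ _

theorem act_smul (c : ℂ) (P : MvPolynomial (Sy n) ℂ) (s : ℕ) (φ : MvPolynomial (Fin n) ℂ) :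
    act (c • P) s φ = c • act P s φ := by
  unfold act
  exact map_smul _ _ _

theorem act_sum {ι : Type} (u : Finset ι) (P : ι → MvPolynomial (Sy n) ℂ) (s : ℕ)
    (φ : MvPolynomial (Fin n) ℂ) :
    act (∑ i ∈ u, P i) s φ = ∑ i ∈ u, act (P i) s φ := by
  unfold act
  exact map_sum _ _ _

/-- `T` is given by a symbol -/
def Rp (T : Module.End ℂ (MvPolynomial (Fin n) ℂ)) : Prop :=
  ∃ W : MvPolynomial (Sy n) ℂ, ∀ (s : ℕ) (φ : MvPolynomial (Fin n) ℂ), T φ = act W s φ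

theorem rp_weyl (h1 : TaskA1) (h5 : TaskA5) (T : Module.End ℂ (MvPolynomial (Fin n) ℂ))
    (hT : T ∈ weylS (Fin n)) : Rp T := by
  unfold weylS at hT
  induction hT using Algebra.adjoin_induction with
  | mem T hT =>
    rcases hT with ⟨i, rfl⟩ | ⟨i, rfl⟩
    · refine ⟨lx i 1, fun s φ => ?_⟩
      rw [(h1 1 s φ).2.2.1 i, (h1 1 s φ).1]
      rfl
    · refine ⟨ld i 1, fun s φ => ?_⟩
      rw [(h1 1 s φ).2.2.2.1 i, (h1 1 s φ).1]
      rfl
  | algebraMap r =>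
    refine ⟨r • 1, fun s φ => ?_⟩
    rw [act_smul, (h1 1 s φ).1]
    rfl
  | add T₁ T₂ _ _ hT₁ hT₂ =>
    obtain ⟨W₁, hW₁⟩ := hT₁
    obtain ⟨W₂, hW₂⟩ := hT₂
    refine ⟨W₁ + W₂, fun s φ => ?_⟩
    rw [act_add, ← hW₁, ← hW₂]
    rfl
  | mul T₁ T₂ _ _ hT₁ hT₂ =>
    obtain ⟨W₁, hW₁⟩ := hT₁
    obtain ⟨W₂, hW₂⟩ := hT₂
    obtain ⟨W, hW⟩ := h5 h1 W₂ W₁
    refine ⟨W, fun s φ => ?_⟩
    rw [← hW, ← hW₁ s, ← hW₂ s]
    rfl

theorem act_ls_iter (h1 : TaskA1) (m : ℕ) (P : MvPolynomial (Sy n) ℂ) (s : ℕ)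
    (φ : MvPolynomial (Fin n) ℂ) :
    act (ls^[m] P) s φ = ((s : ℂ) ^ m) • act P s φ := by
  induction m with
  | zero => simp
  | succ m ih =>
    rw [Function.iterate_succ_apply', (h1 (ls^[m] P) s φ).2.1, ih, pow_succ', mul_smul,
      smul_eq_C_mul _ (s : ℂ), map_natCast]

/-- the value of an operator -/
noncomputable def ev (P : ℕ →₀ weylS (Fin n)) (s : ℕ) (φ : MvPolynomial (Fin n) ℂ) :
    MvPolynomial (Fin n) ℂ :=
  P.sum fun m Q => ((s : ℂ) ^ m) • (Q : Module.End ℂ (MvPolynomial (Fin n) ℂ)) φ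

theorem ev_add (P Q : ℕ →₀ weylS (Fin n)) (s : ℕ) (φ : MvPolynomial (Fin n) ℂ) :
    ev (P + Q) s φ = ev P s φ + ev Q s φ := by
  unfold ev
  refine Finsupp.sum_add_index' (fun m => ?_) (fun m Q₁ Q₂ => ?_)
  · simp
  · rw [← smul_add]
    rfl

theorem ev_single (m : ℕ) (Q : weylS (Fin n)) (s : ℕ) (φ : MvPolynomial (Fin n) ℂ) :
    ev (Finsupp.single m Q) s φ =
      ((s : ℂ) ^ m) • (Q : Module.End ℂ (MvPolynomial (Fin n) ℂ)) φ := by
  unfold ev
  exact Finsupp.sum_single_index (by simp)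

theorem ev_left (T : weylS (Fin n)) (P : ℕ →₀ weylS (Fin n)) (s : ℕ)
    (φ : MvPolynomial (Fin n) ℂ) :
    ev (P.mapRange (fun Q => T * Q) (mul_zero T)) s φ =
      (T : Module.End ℂ (MvPolynomial (Fin n) ℂ)) (ev P s φ) := by
  unfold ev
  rw [Finsupp.sum_mapRange_index (fun m => by simp), map_finsuppSum]
  refine Finsupp.sum_congr fun m _ => ?_
  rw [map_smul]
  rfl

theorem ev_shift (P : ℕ →₀ weylS (Fin n)) (s : ℕ) (φ : MvPolynomial (Fin n) ℂ) :
    ev (P.mapDomain (fun m => m + 1)) s φ = (s : ℂ) • ev P s φ := by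
  unfold ev
  rw [Finsupp.sum_mapDomain_index (fun m => by simp) (fun m Q₁ Q₂ => by rw [← smul_add]; rfl),
    Finsupp.smul_sum]
  refine Finsupp.sum_congr fun m _ => ?_
  rw [pow_succ', mul_smul]

/-- the symbol `P` is given by an operator -/
def Rq (P : MvPolynomial (Sy n) ℂ) : Prop :=
  ∃ P' : ℕ →₀ weylS (Fin n), ∀ (s : ℕ) (φ : MvPolynomial (Fin n) ℂ), act P s φ = ev P' s φ

theorem rq_add {P Q : MvPolynomial (Sy n) ℂ} (hP : Rq P) (hQ : Rq Q) : Rq (P + Q) := by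
  obtain ⟨P', hP'⟩ := hP
  obtain ⟨Q', hQ'⟩ := hQ
  exact ⟨P' + Q', fun s φ => by rw [act_add, ev_add, hP', hQ']⟩

/-- multiplication by a variable -/
noncomputable def wx (i : Fin n) : weylS (Fin n) :=
  ⟨LinearMap.mulLeft ℂ (X i : MvPolynomial (Fin n) ℂ),
    Algebra.subset_adjoin (Or.inl ⟨i, rfl⟩)⟩

/-- the derivative in one variable -/
noncomputable def wd (i : Fin n) : weylS (Fin n) :=
  ⟨((pderiv i : Derivation ℂ (MvPolynomial (Fin n) ℂ)
        (MvPolynomial (Fin n) ℂ)) : MvPolynomial (Fin n) ℂ →ₗ[ℂ] MvPolynomial (Fin n) ℂ),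
    Algebra.subset_adjoin (Or.inr ⟨i, rfl⟩)⟩

theorem rq_smul (c : ℂ) {P : MvPolynomial (Sy n) ℂ} (hP : Rq P) : Rq (c • P) := by
  obtain ⟨P', hP'⟩ := hP
  refine ⟨P'.mapRange (fun Q => algebraMap ℂ (weylS (Fin n)) c * Q) (mul_zero _), fun s φ => ?_⟩
  rw [act_smul, ev_left, hP']
  rfl

theorem rq_one (h1 : TaskA1) : Rq (1 : MvPolynomial (Sy n) ℂ) := by
  refine ⟨Finsupp.single 0 1, fun s φ => ?_⟩
  rw [(h1 1 s φ).1, ev_single, pow_zero, one_smul]
  rfl

theorem rq_ls (h1 : TaskA1) {P : MvPolynomial (Sy n) ℂ} (hP : Rq P) : Rq (ls P) := by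
  obtain ⟨P', hP'⟩ := hP
  refine ⟨P'.mapDomain (fun m => m + 1), fun s φ => ?_⟩
  rw [(h1 P s φ).2.1, ev_shift, hP', smul_eq_C_mul, map_natCast]

theorem rq_lx (h1 : TaskA1) (i : Fin n) {P : MvPolynomial (Sy n) ℂ} (hP : Rq P) :
    Rq (lx i P) := by
  obtain ⟨P', hP'⟩ := hP
  refine ⟨P'.mapRange (fun Q => wx i * Q) (mul_zero _), fun s φ => ?_⟩
  rw [(h1 P s φ).2.2.1 i, ev_left, hP']
  rfl

theorem rq_ld (h1 : TaskA1) (i : Fin n) {P : MvPolynomial (Sy n) ℂ} (hP : Rq P) :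
    Rq (ld i P) := by
  obtain ⟨P', hP'⟩ := hP
  refine ⟨P'.mapRange (fun Q => wd i * Q) (mul_zero _), fun s φ => ?_⟩
  rw [(h1 P s φ).2.2.2.1 i, ev_left, hP']
  rfl

theorem rq_mono (h1 : TaskA1) (d : ℕ) : ∀ (u : Sy n →₀ ℕ), u.degree = d → ∀ a : ℂ,
    Rq (monomial u a) := by
  induction d using Nat.strong_induction_on with
  | _ d ih =>
    intro u hu a
    by_cases hu0 : u = 0
    · subst hu0
      have : (monomial (0 : Sy n →₀ ℕ) a : MvPolynomial (Sy n) ℂ) = a • 1 := by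
        rw [smul_eq_C_mul, mul_one]; rfl
      rw [this]
      exact rq_smul a (rq_one h1)
    · obtain ⟨j, hj⟩ : ∃ j, u j ≠ 0 := by
        by_contra h
        push Not at h
        exact hu0 (Finsupp.ext h)
      have hle : Finsupp.single j 1 ≤ u := Finsupp.single_le_iff.2 (Nat.one_le_iff_ne_zero.2 hj)
      obtain ⟨v, hv⟩ : ∃ v, u = Finsupp.single j 1 + v := ⟨u - Finsupp.single j 1,
        (add_tsub_cancel_of_le hle).symm⟩
      have hdeg : v.degree < d := by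
        rw [← hu, hv, map_add, Finsupp.degree_single]
        omega
      have hX : (monomial u a : MvPolynomial (Sy n) ℂ) = X j * monomial v a := by
        rw [hv, X, monomial_mul, one_mul]
      have hrv : ∀ b : ℂ, Rq (monomial v b : MvPolynomial (Sy n) ℂ) :=
        fun b => ih v.degree hdeg v rfl b
      rcases j with _ | (i | i)
      · rw [hX]
        exact rq_ls h1 (hrv a)
      · rw [hX]
        exact rq_lx h1 i (hrv a)
      · have e : (monomial u a : MvPolynomial (Sy n) ℂ) = ld i (monomial v a) +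
            (-1 : ℂ) • pderiv (some (Sum.inl i)) (monomial v a) := by
          rw [hX, ld, neg_one_smul]
          ring
        rw [e]
        refine rq_add (rq_ld h1 i (hrv a)) (rq_smul _ ?_)
        rw [pderiv_monomial]
        exact ih _ (lt_of_le_of_lt (Finsupp.degree_mono tsub_le_self) hdeg) _ rfl _

theorem rq_all (h1 : TaskA1) (P : MvPolynomial (Sy n) ℂ) : Rq P := by
  induction P using MvPolynomial.induction_on' with
  | monomial u a => exact rq_mono h1 _ u rfl a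
  | add P Q hP hQ => exact rq_add hP hQ

/-- Part B1 -/
theorem b1 : TaskB1 := by
  intro h1 h5 n f b
  constructor
  · rintro ⟨P, hP⟩
    have hW : ∀ m, Rp (P m : Module.End ℂ (MvPolynomial (Fin n) ℂ)) :=
      fun m => rp_weyl h1 h5 _ (P m).2
    choose W hW using hW
    refine ⟨∑ m ∈ P.support, ls^[m] (W m), fun s => ?_⟩
    rw [hP s, act_sum]
    unfold Finsupp.sum
    refine Finset.sum_congr rfl fun m _ => ?_
    rw [act_ls_iter h1, ← hW m]
  · rintro ⟨P, hP⟩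
    obtain ⟨P', hP'⟩ := rq_all h1 P
    refine ⟨P', fun s => ?_⟩
    rw [hP s, hP']
    rfl

end Pool.Agent.W924.GN
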